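import Mathlib

/-!
MP_4d0379_lc (Q1): the half-chromatic number of the continuous graph `Γ(G)` satisfies
`χ_{1/2}(Γ(G)) ≤ χ(G) ≤ 3 χ_{1/2}(Γ(G)) + 1`, so approximating it is as hard as approximating the
chromatic number.
-/

set_option autoImplicit false

namespace Pool.Agent.Results.MP_4d0379_lc.HalfChromatic

open Finset

/-! ### Definitions -/

open Classical in
/-- The point of `Γ(G)` at a vertex `v`, in barycentric coordinates. -/
noncomputable def vx {V : Type} (v : V) : V → ℝ := fun w => if w = v then 1 else 0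

open Classical in
/-- The point at distance `t` from `u` on the segment of the edge `u v`, in barycentric
coordinates: `1 - t` at `u` and `t` at `v`. -/
noncomputable def pt {V : Type} (u v : V) (t : ℝ) : V → ℝ :=
  fun w => (if w = u then 1 - t else 0) + (if w = v then t else 0)

/-- The points of the continuous graph `Γ(G)`: the vertices and the points of the segments of
the edges, given by barycentric coordinates. -/
def Gam {V : Type} (G : SimpleGraph V) : Set (V → ℝ) :=
  {x | (∃ v, x = vx v) ∨ ∃ u v t, G.Adj u v ∧ 0 ≤ t ∧ t ≤ 1 ∧ x = pt u v t}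

/-- `l` is the length of a path from `x` to `y` in `Γ(G)`: either `x` and `y` are at distances
`s` and `t` from `u` on the segment of an edge `u v` and `l = |s - t|`, or the path goes from `x`
to an end `u` of its segment (length `1 - x u`), then along a walk of `G` to an end `v` of the
segment of `y`, then to `y` (length `1 - y v`). The distance `d(x, y)` is the smallest such `l`. -/
def IsLen {V : Type} (G : SimpleGraph V) (x y : V → ℝ) (l : ℝ) : Prop :=
  (∃ u v s t, G.Adj u v ∧ 0 ≤ s ∧ s ≤ 1 ∧ 0 ≤ t ∧ t ≤ 1 ∧ x = pt u v s ∧ y = pt u v t ∧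
    l = |s - t|) ∨
  (∃ u v, ∃ w : G.Walk u v, 0 < x u ∧ 0 < y v ∧ l = (1 - x u) + w.length + (1 - y v))

/-- The closed ball `B(p, r)`: the points which can be reached from `p` by a path of length at
most `r`, i.e. the points at distance at most `r`. -/
def ball {V : Type} (G : SimpleGraph V) (p : V → ℝ) (r : ℝ) : Set (V → ℝ) :=
  {q | q ∈ Gam G ∧ ∃ l, IsLen G p q l ∧ l ≤ r}

/-- An `r`-cover: a set of balls `B(p, r)` with `p` in `Γ(G)` whose union is `Γ(G)`. -/
def IsCover {V : Type} (G : SimpleGraph V) (r : ℝ) (F : Set (Set (V → ℝ))) : Prop :=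
  (∀ B ∈ F, ∃ p ∈ Gam G, B = ball G p r) ∧ ∀ x ∈ Gam G, ∃ B ∈ F, x ∈ B

/-- `Γ(G)` is `(1/2, c)`-colourable. -/
def HalfColourable {V : Type} (G : SimpleGraph V) (c : ℕ) : Prop :=
  0 < c ∧ ∃ F : Set (Set (V → ℝ)), IsCover G (1 / 2) F ∧ ∃ f : Set (V → ℝ) → Fin c,
    ∀ B ∈ F, ∀ B' ∈ F, B ≠ B' → (B ∩ B').Nonempty → f B ≠ f B'

/-- The `1/2`-chromatic number of `Γ(G)`. -/
noncomputable def chiHalf {V : Type} (G : SimpleGraph V) : ℕ := sInf {c | HalfColourable G c}

/-- The chromatic number of `G`. -/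
noncomputable def chi {V : Type} (G : SimpleGraph V) : ℕ := sInf {c | G.Colorable c}

/-- Graphs with at least one vertex: `⟨n, G⟩` is a graph on `n + 1` vertices. -/
abbrev Gr : Type := Σ n : ℕ, SimpleGraph (Fin (n + 1))

/-- The number of vertices. -/
def size (g : Gr) : ℕ := g.1 + 1

/-- The function `A` (the output of an algorithm) approximates the graph parameter `Q` within the
factor `ρ(n)`. -/
def Approximates (Q : Gr → ℕ) (ρ : ℕ → ℝ) (A : Gr → ℕ) : Prop :=
  ∀ g : Gr, (Q g : ℝ) ≤ A g ∧ (A g : ℝ) ≤ ρ (size g) * Q g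

/-- The one-query reduction: the answer `A g` for the same graph is multiplied by `4`; for graphs
with less than `N` vertices a finite table of chromatic numbers is used. -/
noncomputable def reduce (N : ℕ) (A : Gr → ℕ) : Gr → ℕ :=
  fun g => if size g < N then chi g.2 else 4 * A g

/-- Approximating `Q` within the factor `ρ(n)` is `L`-hard for the class `M` of oracle procedures
(think of the polynomial-time ones): some procedure in `M` decides the language `L` with any
approximator of `Q` as an oracle. -/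
def Hard (M : Set ((Gr → ℕ) → List Bool → Bool)) (L : Set (List Bool)) (Q : Gr → ℕ)
    (ρ : ℕ → ℝ) : Prop :=
  ∃ P ∈ M, ∀ A : Gr → ℕ, Approximates Q ρ A → ∀ x : List Bool, P A x = true ↔ x ∈ L

/-! ### Points -/

section

variable {V : Type}

theorem vx_self (v : V) : vx v v = 1 := by simp [vx]

theorem vx_ne {v w : V} (h : w ≠ v) : vx v w = 0 := by simp [vx, h]

theorem vx_pos {v w : V} (h : 0 < vx v w) : w = v := by
  by_contra hne
  rw [vx_ne hne] at h
  exact lt_irrefl _ h

theorem pt_left {u v : V} (h : u ≠ v) (t : ℝ) : pt u v t u = 1 - t := by simp [pt, h]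

theorem pt_right {u v : V} (h : u ≠ v) (t : ℝ) : pt u v t v = t := by simp [pt, h.symm]

theorem pt_other {u v w : V} (h1 : w ≠ u) (h2 : w ≠ v) (t : ℝ) : pt u v t w = 0 := by
  simp [pt, h1, h2]

theorem pt_mem {u v w : V} {t : ℝ} (h : pt u v t w ≠ 0) : w = u ∨ w = v := by
  by_contra hne
  rw [not_or] at hne
  exact h (pt_other hne.1 hne.2 t)

theorem pt_zero (u v : V) : pt u v 0 = vx u := by
  funext w
  simp [pt, vx]

theorem pt_one (u v : V) : pt u v 1 = vx v := by
  funext w
  simp [pt, vx]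

theorem pt_swap (u v : V) (t : ℝ) : pt u v t = pt v u (1 - t) := by
  funext w
  simp only [pt]
  rw [add_comm]
  simp

variable {G : SimpleGraph V}

theorem vx_mem (v : V) : vx v ∈ Gam G := Or.inl ⟨v, rfl⟩

theorem pt_mem_Gam {u v : V} (h : G.Adj u v) {t : ℝ} (h0 : 0 ≤ t) (h1 : t ≤ 1) :
    pt u v t ∈ Gam G := Or.inr ⟨u, v, t, h, h0, h1, rfl⟩

theorem Gam_le_one {x : V → ℝ} (hx : x ∈ Gam G) (a : V) : x a ≤ 1 := by
  rcases hx with ⟨v, rfl⟩ | ⟨u, v, t, h, h0, h1, rfl⟩
  · by_cases ha : a = v
    · rw [ha, vx_self]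
    · rw [vx_ne ha]; norm_num
  · by_cases ha : a = u
    · rw [ha, pt_left h.ne]; linarith
    · by_cases hb : a = v
      · rw [hb, pt_right h.ne]; exact h1
      · rw [pt_other ha hb]; norm_num

theorem Gam_eq_one {x : V → ℝ} (hx : x ∈ Gam G) {a : V} (ha : 1 ≤ x a) : x = vx a := by
  rcases hx with ⟨v, rfl⟩ | ⟨u, v, t, h, h0, h1, rfl⟩
  · have : a = v := vx_pos (by linarith)
    rw [this]
  · rcases pt_mem (show pt u v t a ≠ 0 by linarith) with rfl | rfl
    · rw [pt_left h.ne] at ha
      have : t = 0 := by linarith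
      rw [this, pt_zero]
    · rw [pt_right h.ne] at ha
      have : t = 1 := by linarith
      rw [this, pt_one]

/-! ### Distances -/

theorem isLen_self (v : V) : IsLen G (vx v) (vx v) 0 := by
  refine Or.inr ⟨v, v, SimpleGraph.Walk.nil, ?_, ?_, ?_⟩
  · rw [vx_self]; norm_num
  · rw [vx_self]; norm_num
  · rw [vx_self]; simp

theorem isLen_seg {u v : V} (h : G.Adj u v) {s t : ℝ} (hs0 : 0 ≤ s) (hs1 : s ≤ 1) (ht0 : 0 ≤ t)
    (ht1 : t ≤ 1) : IsLen G (pt u v s) (pt u v t) |s - t| :=
  Or.inl ⟨u, v, s, t, h, hs0, hs1, ht0, ht1, rfl, rfl, rfl⟩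

/-- A point within `1/2` of a vertex `u` has weight at least `1/2` at `u`. -/
theorem near_vertex {u : V} {z : V → ℝ} (hz : z ∈ Gam G) {l : ℝ} (h : IsLen G (vx u) z l)
    (hl : l ≤ 1 / 2) : 1 / 2 ≤ z u := by
  rcases h with ⟨a, b, s, t, hab, hs0, hs1, ht0, ht1, h1, h2, h3⟩ | ⟨a, b, w, ha, hb, h3⟩
  · have hu : pt a b s u ≠ 0 := by rw [← h1, vx_self]; norm_num
    have h4 : pt a b s u = 1 := by rw [← h1, vx_self]
    rw [h3, abs_le] at hl
    rcases pt_mem hu with rfl | rfl
    · rw [pt_left hab.ne] at h4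
      rw [h2, pt_left hab.ne]
      linarith
    · rw [pt_right hab.ne] at h4
      rw [h2, pt_right hab.ne]
      linarith
  · have hau : a = u := vx_pos ha
    subst hau
    rw [vx_self] at h3
    have hb1 := Gam_le_one hz b
    have hlen : (w.length : ℝ) < 1 := by linarith
    have hlen0 : w.length = 0 := by
      have : w.length < 1 := by exact_mod_cast hlen
      omega
    have hab : a = b := SimpleGraph.Walk.eq_of_length_eq_zero hlen0
    subst hab
    rw [hlen0] at h3
    push_cast at h3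
    linarith

/-- A point within `1/2` of the midpoint of an edge lies on the segment of this edge. -/
theorem near_mid {u v : V} (huv : G.Adj u v) {p : V → ℝ} (hp : p ∈ Gam G) {l : ℝ}
    (h : IsLen G p (pt u v (1 / 2)) l) (hl : l ≤ 1 / 2) :
    ∃ t, 0 ≤ t ∧ t ≤ 1 ∧ p = pt u v t := by
  have e1 : pt u v (1 / 2) u = 1 / 2 := by rw [pt_left huv.ne]; norm_num
  have e2 : pt u v (1 / 2) v = 1 / 2 := by rw [pt_right huv.ne]
  rcases h with ⟨a, b, s, t, hab, hs0, hs1, ht0, ht1, h1, h2, h3⟩ | ⟨a, b, w, ha, hb, h3⟩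
  · have h4 : pt a b t u ≠ 0 := by rw [← h2, e1]; norm_num
    have h5 : pt a b t v ≠ 0 := by rw [← h2, e2]; norm_num
    rcases pt_mem h4 with h6 | h6
    · rcases pt_mem h5 with h7 | h7
      · exact absurd (h6.trans h7.symm) huv.ne
      · subst h6; subst h7
        exact ⟨s, hs0, hs1, h1⟩
    · rcases pt_mem h5 with h7 | h7
      · subst h6; subst h7
        refine ⟨1 - s, by linarith, by linarith, ?_⟩
        rw [h1, pt_swap]
      · exact absurd (h6.trans h7.symm) huv.ne
  · have hb1 : pt u v (1 / 2) b = 1 / 2 := by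
      rcases pt_mem (ne_of_gt hb) with h6 | h6
      · rw [h6, e1]
      · rw [h6, e2]
    have ha1 := Gam_le_one hp a
    rw [hb1] at h3
    have hw0 : (0 : ℝ) ≤ w.length := Nat.cast_nonneg _
    have hlen0 : w.length = 0 := by
      have : (w.length : ℝ) ≤ 0 := by linarith
      have : w.length ≤ 0 := by exact_mod_cast this
      omega
    have hab : a = b := SimpleGraph.Walk.eq_of_length_eq_zero hlen0
    subst hab
    have hpa : 1 ≤ p a := by linarith
    have hpv := Gam_eq_one hp hpa
    rcases pt_mem (ne_of_gt hb) with h6 | h6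
    · subst h6
      exact ⟨0, le_refl _, by norm_num, by rw [hpv, pt_zero]⟩
    · subst h6
      exact ⟨1, by norm_num, le_refl _, by rw [hpv, pt_one]⟩

theorem self_mem_ball (v : V) : vx v ∈ ball G (vx v) (1 / 2) :=
  ⟨vx_mem v, 0, isLen_self v, by norm_num⟩

theorem vx_not_mem_ball {u v : V} (h : u ≠ v) : vx u ∉ ball G (vx v) (1 / 2) := by
  rintro ⟨h1, l, h2, h3⟩
  have h4 := near_vertex h1 h2 h3
  rw [vx_ne h.symm] at h4
  norm_num at h4

theorem ball_ne {u v : V} (h : u ≠ v) : ball G (vx u) (1 / 2) ≠ ball G (vx v) (1 / 2) := by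
  intro e
  exact vx_not_mem_ball h (e ▸ self_mem_ball u)

theorem mid_mem_left {u v : V} (h : G.Adj u v) : pt u v (1 / 2) ∈ ball G (vx u) (1 / 2) := by
  refine ⟨pt_mem_Gam h (by norm_num) (by norm_num), |0 - 1 / 2|, ?_, ?_⟩
  · rw [← pt_zero u v]
    exact isLen_seg h (le_refl _) (by norm_num) (by norm_num) (by norm_num)
  · rw [abs_le]; constructor <;> norm_num

theorem mid_mem_right {u v : V} (h : G.Adj u v) : pt u v (1 / 2) ∈ ball G (vx v) (1 / 2) := by
  refine ⟨pt_mem_Gam h (by norm_num) (by norm_num), |1 - 1 / 2|, ?_, ?_⟩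
  · rw [← pt_one u v]
    exact isLen_seg h (by norm_num) (le_refl _) (by norm_num) (by norm_num)
  · rw [abs_le]; constructor <;> norm_num

/-- Balls around two points near `u` on different edges at `u` intersect. -/
theorem star_inter {u v v' : V} (h : G.Adj u v) (h' : G.Adj u v') {t t' : ℝ} (ht0 : 0 < t)
    (ht : t ≤ 1 / 2) (ht0' : 0 < t') (ht' : t' ≤ 1 / 2) :
    (ball G (pt u v t) (1 / 2) ∩ ball G (pt u v' t') (1 / 2)).Nonempty := by
  refine ⟨vx u, ⟨vx_mem u, |t - 0|, ?_, ?_⟩, ⟨vx_mem u, |t' - 0|, ?_, ?_⟩⟩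
  · rw [← pt_zero u v]
    exact isLen_seg h ht0.le (by linarith) (le_refl _) (by norm_num)
  · rw [abs_le]; constructor <;> linarith
  · rw [← pt_zero u v']
    exact isLen_seg h' ht0'.le (by linarith) (le_refl _) (by norm_num)
  · rw [abs_le]; constructor <;> linarith

/-- Balls around two points near `u` on different edges at `u` are different. -/
theorem star_ne {u v v' : V} (h : G.Adj u v) (h' : G.Adj u v') (hv : v ≠ v') {t t' : ℝ}
    (ht0 : 0 < t) (ht : t ≤ 1 / 2) (ht0' : 0 < t') (ht' : t' ≤ 1 / 2) :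
    ball G (pt u v t) (1 / 2) ≠ ball G (pt u v' t') (1 / 2) := by
  intro e
  have hz : pt u v' (t' + 1 / 2) ∈ ball G (pt u v' t') (1 / 2) := by
    refine ⟨pt_mem_Gam h' (by linarith) (by linarith), |t' - (t' + 1 / 2)|,
      isLen_seg h' ht0'.le (by linarith) (by linarith) (by linarith), ?_⟩
    rw [abs_le]; constructor <;> linarith
  rw [← e] at hz
  obtain ⟨hzG, l, hl, hle⟩ := hz
  rcases hl with ⟨a, b, s, r, hab, hs0, hs1, hr0, hr1, h1, h2, h3⟩ | ⟨a, b, w, ha, hb, h3⟩
  · have e1 : pt a b s u ≠ 0 := by rw [← h1, pt_left h.ne]; linarith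
    have e2 : pt a b s v ≠ 0 := by rw [← h1, pt_right h.ne]; linarith
    have e3 : pt a b r v' ≠ 0 := by rw [← h2, pt_right h'.ne]; linarith
    have n1 := h.ne
    have n2 := h'.ne
    rcases pt_mem e1 with f1 | f1 <;> rcases pt_mem e2 with f2 | f2 <;>
      rcases pt_mem e3 with f3 | f3
    · exact n1 (f1.trans f2.symm)
    · exact n1 (f1.trans f2.symm)
    · exact n2 (f1.trans f3.symm)
    · exact hv (f2.trans f3.symm)
    · exact hv (f2.trans f3.symm)
    · exact n2 (f1.trans f3.symm)
    · exact n1 (f1.trans f2.symm)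
    · exact n1 (f1.trans f2.symm)
  · have hp : pt u v t ∈ Gam G := pt_mem_Gam h ht0.le (by linarith)
    have hpa := Gam_le_one hp a
    have hzb := Gam_le_one hzG b
    have hw0 : (0 : ℝ) ≤ w.length := Nat.cast_nonneg _
    rcases pt_mem (ne_of_gt hb) with f | f
    · have hbv : pt u v' (t' + 1 / 2) b = 1 - (t' + 1 / 2) := by rw [f, pt_left h'.ne]
      linarith
    · have hne : a ≠ b := by
        rcases pt_mem (ne_of_gt ha) with g | g
        · rw [g, f]; exact h'.ne
        · rw [g, f]; exact hv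
      have hlen : w.length ≠ 0 := fun h0 => hne (SimpleGraph.Walk.eq_of_length_eq_zero h0)
      have : (1 : ℝ) ≤ w.length := by exact_mod_cast Nat.one_le_iff_ne_zero.mpr hlen
      linarith

end

/-! ### Colouring a graph with an orientation of small outdegree -/

theorem colour_of_orient {V : Type} [Fintype V] (G : SimpleGraph V) (R : V → V → Prop)
    (c : ℕ) (U : Set V) (h1 : ∀ u v, u ∈ U → v ∈ U → G.Adj u v → R u v ∨ R v u)
    (h2 : ∀ (u : V) (S : Finset V), (∀ v ∈ S, G.Adj u v ∧ R u v) → S.card ≤ c) :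
    ∃ g : V → Fin (2 * c + 1), ∀ u v, u ∈ U → v ∈ U → G.Adj u v → g u ≠ g v := by
  classical
  have key : ∀ n : ℕ, ∀ W : Finset V, W.card = n → (∀ w ∈ W, w ∈ U) →
      ∃ g : V → Fin (2 * c + 1), ∀ u ∈ W, ∀ v ∈ W, G.Adj u v → g u ≠ g v := by
    intro n
    induction n with
    | zero =>
      intro W hW _
      rw [Finset.card_eq_zero] at hW
      subst hW
      exact ⟨fun _ => 0, fun u hu => absurd hu (Finset.notMem_empty u)⟩
    | succ n ih =>
      intro W hW hWU
      -- a vertex of small degree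
      have hex : ∃ x ∈ W, (W.filter (fun v => G.Adj x v)).card ≤ 2 * c := by
        by_contra hcon
        push Not at hcon
        have hlow : ∑ x ∈ W, (2 * c + 1) ≤ ∑ x ∈ W, (W.filter (fun v => G.Adj x v)).card :=
          Finset.sum_le_sum fun x hx => hcon x hx
        have hsplit : ∑ x ∈ W, (W.filter (fun v => G.Adj x v)).card ≤
            ∑ x ∈ W, (W.filter (fun v => G.Adj x v ∧ R x v)).card +
              ∑ x ∈ W, (W.filter (fun v => G.Adj v x ∧ R v x)).card := by
          rw [← Finset.sum_add_distrib]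
          refine Finset.sum_le_sum fun x hx => ?_
          refine le_trans (Finset.card_le_card ?_) (Finset.card_union_le _ _)
          intro v hv
          rw [Finset.mem_filter] at hv
          rw [Finset.mem_union, Finset.mem_filter, Finset.mem_filter]
          rcases h1 x v (hWU x hx) (hWU v hv.1) hv.2 with h | h
          · exact Or.inl ⟨hv.1, hv.2, h⟩
          · exact Or.inr ⟨hv.1, hv.2.symm, h⟩
        have hout : ∑ x ∈ W, (W.filter (fun v => G.Adj x v ∧ R x v)).card ≤ ∑ x ∈ W, c :=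
          Finset.sum_le_sum fun x _ => h2 x _ fun v hv => (Finset.mem_filter.mp hv).2
        have hin : ∑ x ∈ W, (W.filter (fun v => G.Adj v x ∧ R v x)).card =
            ∑ x ∈ W, (W.filter (fun v => G.Adj x v ∧ R x v)).card := by
          simp only [Finset.card_filter]
          rw [Finset.sum_comm]
        rw [Finset.sum_const, smul_eq_mul] at hlow hout
        rw [hin] at hsplit
        have : W.card * (2 * c + 1) ≤ W.card * c + W.card * c := by omega
        rw [hW] at this
        nlinarith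
      obtain ⟨x, hxW, hx⟩ := hex
      obtain ⟨g, hg⟩ := ih (W.erase x) (by rw [Finset.card_erase_of_mem hxW, hW]; rfl)
        (fun w hw => hWU w (Finset.mem_of_mem_erase hw))
      -- a free colour
      have hfree : ∃ k : Fin (2 * c + 1), k ∉ (W.filter (fun v => G.Adj x v)).image g := by
        by_contra hcon
        push Not at hcon
        have h3 : (Finset.univ : Finset (Fin (2 * c + 1))) ⊆
            (W.filter (fun v => G.Adj x v)).image g := fun k _ => hcon k
        have h4 := (Finset.card_le_card h3).trans Finset.card_image_le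
        rw [Finset.card_univ, Fintype.card_fin] at h4
        omega
      obtain ⟨k, hk⟩ := hfree
      refine ⟨fun w => if w = x then k else g w, ?_⟩
      intro u hu v hv huv
      by_cases hux : u = x
      · by_cases hvx : v = x
        · exact absurd (hux.trans hvx.symm) huv.ne
        · simp only [hux, hvx, if_true, if_false]
          intro e
          apply hk
          rw [Finset.mem_image]
          exact ⟨v, Finset.mem_filter.mpr ⟨hv, hux ▸ huv⟩, e.symm⟩
      · by_cases hvx : v = x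
        · simp only [hux, hvx, if_true, if_false]
          intro e
          apply hk
          rw [Finset.mem_image]
          exact ⟨u, Finset.mem_filter.mpr ⟨hu, hvx ▸ huv.symm⟩, e⟩
        · simp only [hux, hvx, if_false]
          exact hg u (Finset.mem_erase.mpr ⟨hux, hu⟩) v (Finset.mem_erase.mpr ⟨hvx, hv⟩) huv
  obtain ⟨g, hg⟩ := key _ (Finset.univ.filter (fun v => v ∈ U)) rfl
    (fun w hw => (Finset.mem_filter.mp hw).2)
  exact ⟨g, fun u v hu hv huv => hg u (by simpa using hu) v (by simpa using hv) huv⟩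

/-! ### The two inequalities -/

theorem colorable_of_half {V : Type} [Fintype V] {G : SimpleGraph V} {c : ℕ}
    (h : HalfColourable G c) : G.Colorable (3 * c + 1) := by
  classical
  obtain ⟨hc, F, ⟨hF1, hF2⟩, f, hf⟩ := h
  let U : Set V := {v | ball G (vx v) (1 / 2) ∉ F}
  let R : V → V → Prop := fun u v => ∃ t : ℝ, 0 < t ∧ t ≤ 1 / 2 ∧ ball G (pt u v t) (1 / 2) ∈ F
  have hR : ∀ u v, u ∈ U → v ∈ U → G.Adj u v → R u v ∨ R v u := by
    intro u v hu hv huv
    obtain ⟨B, hB, hm⟩ := hF2 (pt u v (1 / 2)) (pt_mem_Gam huv (by norm_num) (by norm_num))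
    obtain ⟨p, hp, rfl⟩ := hF1 B hB
    obtain ⟨_, l, hl, hle⟩ := hm
    obtain ⟨t, ht0, ht1, rfl⟩ := near_mid huv hp hl hle
    have n0 : t ≠ 0 := by
      rintro rfl
      rw [pt_zero] at hB
      exact hu hB
    have n1 : t ≠ 1 := by
      rintro rfl
      rw [pt_one] at hB
      exact hv hB
    have p0 : 0 < t := lt_of_le_of_ne ht0 (Ne.symm n0)
    have p1 : t < 1 := lt_of_le_of_ne ht1 n1
    rcases le_or_gt t (1 / 2) with h | h
    · exact Or.inl ⟨t, p0, h, hB⟩
    · refine Or.inr ⟨1 - t, by linarith, by linarith, ?_⟩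
      rw [← pt_swap]
      exact hB
  have hout : ∀ (u : V) (S : Finset V), (∀ v ∈ S, G.Adj u v ∧ R u v) → S.card ≤ c := by
    intro u S hS
    have hch : ∀ v : V, ∃ t : ℝ, v ∈ S → (0 < t ∧ t ≤ 1 / 2 ∧ ball G (pt u v t) (1 / 2) ∈ F) := by
      intro v
      by_cases hv : v ∈ S
      · obtain ⟨t, ht⟩ := (hS v hv).2
        exact ⟨t, fun _ => ht⟩
      · exact ⟨0, fun h => absurd h hv⟩
    choose t ht using hch
    have h1 := Finset.card_le_card_of_injOn (s := S) (t := (Finset.univ : Finset (Fin c)))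
      (fun v => f (ball G (pt u v (t v)) (1 / 2))) (fun _ _ => Finset.mem_univ _) (by
        intro v hv v' hv' e
        by_contra hne
        obtain ⟨a1, a2, a3⟩ := ht v hv
        obtain ⟨b1, b2, b3⟩ := ht v' hv'
        exact hf _ a3 _ b3 (star_ne (hS v hv).1 (hS v' hv').1 hne a1 a2 b1 b2)
          (star_inter (hS v hv).1 (hS v' hv').1 a1 a2 b1 b2) e)
    rwa [Finset.card_univ, Fintype.card_fin] at h1
  obtain ⟨g, hg⟩ := colour_of_orient G R c U hR hout
  let C : G.Coloring (Fin c ⊕ Fin (2 * c + 1)) := SimpleGraph.Coloring.mk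
    (fun v => if v ∈ U then Sum.inr (g v) else Sum.inl (f (ball G (vx v) (1 / 2)))) (by
      intro u v huv
      by_cases hu : u ∈ U
      · by_cases hv : v ∈ U
        · simp only [hu, hv, if_true]
          intro e
          exact hg u v hu hv huv (Sum.inr_injective e)
        · simp only [hu, hv, if_true, if_false]
          exact Sum.inr_ne_inl
      · by_cases hv : v ∈ U
        · simp only [hu, hv, if_true, if_false]
          exact Sum.inl_ne_inr
        · simp only [hu, hv, if_false]
          intro e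
          have hu' : ball G (vx u) (1 / 2) ∈ F := not_not.mp hu
          have hv' : ball G (vx v) (1 / 2) ∈ F := not_not.mp hv
          exact hf _ hu' _ hv' (ball_ne huv.ne) ⟨_, mid_mem_left huv, mid_mem_right huv⟩
            (Sum.inl_injective e))
  have h3 := C.colorable
  rw [Fintype.card_sum, Fintype.card_fin, Fintype.card_fin] at h3
  have e : c + (2 * c + 1) = 3 * c + 1 := by ring
  rwa [e] at h3

theorem half_of_colorable {V : Type} [Nonempty V] {G : SimpleGraph V} {c : ℕ}
    (h : G.Colorable c) : HalfColourable G c := by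
  classical
  obtain ⟨C⟩ := h
  have hc : 0 < c := Fin.pos (C (Classical.arbitrary V))
  refine ⟨hc, Set.range (fun v => ball G (vx v) (1 / 2)), ⟨?_, ?_⟩, ?_⟩
  · rintro _ ⟨v, rfl⟩
    exact ⟨vx v, vx_mem v, rfl⟩
  · rintro x (⟨v, rfl⟩ | ⟨u, v, t, huv, h0, h1, rfl⟩)
    · exact ⟨_, ⟨v, rfl⟩, self_mem_ball v⟩
    · rcases le_or_gt t (1 / 2) with h | h
      · refine ⟨_, ⟨u, rfl⟩, pt_mem_Gam huv h0 h1, |0 - t|, ?_, ?_⟩
        · rw [← pt_zero u v]
          exact isLen_seg huv (le_refl _) (by norm_num) h0 h1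
        · rw [abs_le]; constructor <;> linarith
      · refine ⟨_, ⟨v, rfl⟩, pt_mem_Gam huv h0 h1, |1 - t|, ?_, ?_⟩
        · rw [← pt_one u v]
          exact isLen_seg huv (by norm_num) (le_refl _) h0 h1
        · rw [abs_le]; constructor <;> linarith
  · refine ⟨fun B => if h : ∃ v, B = ball G (vx v) (1 / 2) then C h.choose else ⟨0, hc⟩, ?_⟩
    have hval : ∀ v : V, (if h : ∃ w, ball G (vx v) (1 / 2) = ball G (vx w) (1 / 2)
        then C h.choose else ⟨0, hc⟩) = C v := by
      intro v
      have hex : ∃ w, ball G (vx v) (1 / 2) = ball G (vx w) (1 / 2) := ⟨v, rfl⟩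
      rw [dif_pos hex]
      have h1 := hex.choose_spec
      have h2 : v = hex.choose := by
        by_contra hne
        exact ball_ne hne h1
      rw [← h2]
    rintro _ ⟨u, rfl⟩ _ ⟨v, rfl⟩ hne ⟨z, ⟨hz, l, hl, hle⟩, ⟨_, l', hl', hle'⟩⟩
    have huv : u ≠ v := fun e => hne (by simp only [e])
    have hzu := near_vertex hz hl hle
    have hzv := near_vertex hz hl' hle'
    have hadj : G.Adj u v := by
      rcases hz with ⟨w, rfl⟩ | ⟨a, b, t, hab, h0, h1, rfl⟩
      · have e1 := vx_pos (show 0 < vx w u by linarith)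
        have e2 := vx_pos (show 0 < vx w v by linarith)
        exact absurd (e1.trans e2.symm) huv
      · have n1 : pt a b t u ≠ 0 := by linarith
        have n2 : pt a b t v ≠ 0 := by linarith
        rcases pt_mem n1 with e1 | e1 <;> rcases pt_mem n2 with e2 | e2
        · exact absurd (e1.trans e2.symm) huv
        · rw [e1, e2]; exact hab
        · rw [e1, e2]; exact hab.symm
        · exact absurd (e1.trans e2.symm) huv
    have := hval u
    have := hval v
    simp only [hval]
    exact C.valid hadj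

theorem chi_colorable {V : Type} [Fintype V] (G : SimpleGraph V) : G.Colorable (chi G) :=
  Nat.sInf_mem (s := {c | G.Colorable c}) ⟨_, G.colorable_of_fintype⟩

theorem chiHalf_le_chi {V : Type} [Fintype V] [Nonempty V] (G : SimpleGraph V) :
    chiHalf G ≤ chi G :=
  Nat.sInf_le (half_of_colorable (chi_colorable G))

theorem chiHalf_spec {V : Type} [Fintype V] [Nonempty V] (G : SimpleGraph V) :
    HalfColourable G (chiHalf G) :=
  Nat.sInf_mem (s := {c | HalfColourable G c}) ⟨_, half_of_colorable (chi_colorable G)⟩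

theorem chi_le {V : Type} [Fintype V] [Nonempty V] (G : SimpleGraph V) :
    chi G ≤ 3 * chiHalf G + 1 :=
  Nat.sInf_le (colorable_of_half (chiHalf_spec G))

/-! ### The reduction -/

theorem exists_threshold (ε : ℝ) (hε : 0 < ε) :
    ∃ N : ℕ, ∀ n : ℕ, N ≤ n → 4 * (n : ℝ) ^ (1 - ε) ≤ (n : ℝ) ^ (1 - ε / 2) := by
  have h1 := (tendsto_rpow_atTop (show 0 < ε / 2 by linarith)).comp
    (tendsto_natCast_atTop_atTop (R := ℝ))
  obtain ⟨N, hN⟩ := Filter.eventually_atTop.mp (h1.eventually_ge_atTop 4)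
  refine ⟨max N 1, fun n hn => ?_⟩
  have hn0 : (0 : ℝ) < n := by
    have : 1 ≤ n := (le_max_right _ _).trans hn
    exact_mod_cast this
  have h2 : (4 : ℝ) ≤ (n : ℝ) ^ (ε / 2) := hN n ((le_max_left _ _).trans hn)
  have h3 : (n : ℝ) ^ (1 - ε / 2) = (n : ℝ) ^ (ε / 2) * (n : ℝ) ^ (1 - ε) := by
    rw [← Real.rpow_add hn0]
    congr 1
    ring
  rw [h3]
  exact mul_le_mul_of_nonneg_right h2 (Real.rpow_nonneg hn0.le _)

theorem reduce_spec (ε : ℝ) (hε : 0 < ε) (hε1 : ε ≤ 1) : ∃ N : ℕ, ∀ A : Gr → ℕ,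
    Approximates (fun g => chiHalf g.2) (fun n => (n : ℝ) ^ (1 - ε)) A →
      Approximates (fun g => chi g.2) (fun n => (n : ℝ) ^ (1 - ε / 2)) (reduce N A) := by
  obtain ⟨N, hN⟩ := exists_threshold ε hε
  refine ⟨N, fun A hA g => ?_⟩
  obtain ⟨h1, h2⟩ := hA g
  have hs1 : (1 : ℝ) ≤ (size g : ℝ) := by
    have : 1 ≤ size g := Nat.succ_le_succ (Nat.zero_le _)
    exact_mod_cast this
  by_cases hg : size g < N
  · have e : reduce N A g = chi g.2 := by simp only [reduce, hg, if_true]
    rw [e]
    refine ⟨le_refl _, ?_⟩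
    have h3 : (1 : ℝ) ≤ (size g : ℝ) ^ (1 - ε / 2) := Real.one_le_rpow hs1 (by linarith)
    have h4 : (0 : ℝ) ≤ (chi g.2 : ℝ) := Nat.cast_nonneg _
    nlinarith
  · have e : reduce N A g = 4 * A g := by simp only [reduce, hg, if_false]
    rw [e]
    have hle1 : (chiHalf g.2 : ℝ) ≤ chi g.2 := by exact_mod_cast chiHalf_le_chi g.2
    have hle2 : (chi g.2 : ℝ) ≤ 3 * chiHalf g.2 + 1 := by exact_mod_cast chi_le g.2
    have hpos : (1 : ℝ) ≤ chiHalf g.2 := by exact_mod_cast (chiHalf_spec g.2).1
    push_cast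
    constructor
    · linarith
    · have h5 := hN (size g) (not_lt.mp hg)
      have h6 : (0 : ℝ) ≤ (size g : ℝ) ^ (1 - ε) := Real.rpow_nonneg (by linarith) _
      calc (4 : ℝ) * A g ≤ 4 * ((size g : ℝ) ^ (1 - ε) * chiHalf g.2) := by linarith
        _ = (4 * (size g : ℝ) ^ (1 - ε)) * chiHalf g.2 := by ring
        _ ≤ (4 * (size g : ℝ) ^ (1 - ε)) * chi g.2 :=
            mul_le_mul_of_nonneg_left hle1 (by linarith)
        _ ≤ (size g : ℝ) ^ (1 - ε / 2) * chi g.2 :=
            mul_le_mul_of_nonneg_right h5 (by linarith)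

/-- **The half-chromatic number of a continuous graph is within a constant factor of the
chromatic number, so it is as hard to approximate.** (1) `χ_{1/2}(Γ(G)) ≤ χ(G) ≤ 3 χ_{1/2}(Γ(G)) + 1`
for every finite graph with a vertex. (2) For `0 < ε ≤ 1` there is `N` such that, for every
approximator `A` of `χ_{1/2}` within `n ^ (1 - ε)`, the one-query reduction `reduce N A` (four times
the answer for the same graph, and a finite table for the graphs with less than `N` vertices)
approximates `χ` within `n ^ (1 - ε / 2)`. (3) Hence, for every class `M` of oracle procedures which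
is closed under this reduction and every language `L`: if approximating `χ` within `n ^ (1 - δ)` is
`L`-hard for every `δ` (the theorem of Zuckerman, for every `L` in NP), then approximating
`χ_{1/2}` within `n ^ (1 - ε)` is `L`-hard for every `ε`. -/
theorem result :
    (∀ (V : Type) [Fintype V] [Nonempty V] (G : SimpleGraph V),
      chiHalf G ≤ chi G ∧ chi G ≤ 3 * chiHalf G + 1) ∧
    (∀ ε : ℝ, 0 < ε → ε ≤ 1 → ∃ N : ℕ, ∀ A : Gr → ℕ,
      Approximates (fun g => chiHalf g.2) (fun n => (n : ℝ) ^ (1 - ε)) A →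
        Approximates (fun g => chi g.2) (fun n => (n : ℝ) ^ (1 - ε / 2)) (reduce N A)) ∧
    (∀ (M : Set ((Gr → ℕ) → List Bool → Bool)) (L : Set (List Bool)),
      (∀ P ∈ M, ∀ N : ℕ, (fun A => P (reduce N A)) ∈ M) →
      (∀ δ : ℝ, 0 < δ → δ ≤ 1 →
        Hard M L (fun g => chi g.2) (fun n => (n : ℝ) ^ (1 - δ))) →
      ∀ ε : ℝ, 0 < ε → ε ≤ 1 →
        Hard M L (fun g => chiHalf g.2) (fun n => (n : ℝ) ^ (1 - ε))) := by
  refine ⟨fun V _ _ G => ⟨chiHalf_le_chi G, chi_le G⟩, reduce_spec, ?_⟩
  intro M L hM hZ ε hε hε1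
  obtain ⟨N, hN⟩ := reduce_spec ε hε hε1
  obtain ⟨P, hP, hdec⟩ := hZ (ε / 2) (by linarith) (by linarith)
  exact ⟨fun A => P (reduce N A), hM P hP N, fun A hA x => hdec _ (hN A hA) x⟩

end Pool.Agent.Results.MP_4d0379_lc.HalfChromatic
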